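import Pool.Agent.Lib.MP_5915c0_an.Ex

/-!
# MP_5915c0_an: counterexamples in every codimension `d ≥ 2` and every dimension `n ≥ d`
-/

set_option autoImplicit false

open scoped Topology
open Pool.Agent.Lib.MP_5915c0_an

namespace Pool.Agent.Results.MP_5915c0_an.EveryCodimension

/-- the rational map with the numerators `P 0`, `P 1` and the denominator `Q` -/
noncomputable def rat {n : ℕ} (P : Fin 2 → MvPolynomial (Fin n) ℂ) (Q : MvPolynomial (Fin n) ℂ)
    (w : EuclideanSpace ℂ (Fin n)) : EuclideanSpace ℂ (Fin 2) :=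
  WithLp.toLp 2 fun j =>
    MvPolynomial.eval (fun i => w i) (P j) / MvPolynomial.eval (fun i => w i) Q

/-- the wedge with edge `M ∩ U`, cone `Γ` and size `δ` -/
def wedge {n : ℕ} (M U Γ : Set (EuclideanSpace ℂ (Fin n))) (δ : ℝ) :
    Set (EuclideanSpace ℂ (Fin n)) :=
  {w | ∃ p ∈ M ∩ U, ∃ v ∈ Γ, ‖v‖ < δ ∧ w = p + v}

/-- the real linear subspace `M` of `ℂ^n` has real codimension `d` and is generic: `M + iM = ℂ^n` -/
def Generic {n : ℕ} (d : ℕ) (M : Submodule ℝ (EuclideanSpace ℂ (Fin n))) : Prop :=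
  Module.finrank ℝ M + d = 2 * n ∧ ∀ v, ∃ a ∈ M, ∃ b ∈ M, v = a + Complex.I • b

/-- `Γ` is a nonempty open convex cone without `0` in a real subspace `L` of dimension `d`
complementary to `M` -/
def TransversalCone {n : ℕ} (d : ℕ) (M : Submodule ℝ (EuclideanSpace ℂ (Fin n)))
    (Γ : Set (EuclideanSpace ℂ (Fin n))) : Prop :=
  ∃ L : Submodule ℝ (EuclideanSpace ℂ (Fin n)), IsCompl M L ∧ Module.finrank ℝ L = d ∧
    (∃ O, IsOpen O ∧ Γ = O ∩ L) ∧ Convex ℝ Γ ∧ Γ.Nonempty ∧ 0 ∉ Γ ∧
    ∀ v ∈ Γ, ∀ t : ℝ, 0 < t → t • v ∈ Γ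

/-- the map `rat P Q` is holomorphic on `W` with norm less than `1`, and `‖rat P Q w‖ ^ 2 → 1` as
`w ∈ W` tends to any point of `M ∩ U` -/
def NormOneAtEdge {n : ℕ} (M U W : Set (EuclideanSpace ℂ (Fin n)))
    (P : Fin 2 → MvPolynomial (Fin n) ℂ) (Q : MvPolynomial (Fin n) ℂ) : Prop :=
  (∀ w ∈ W, MvPolynomial.eval (fun i => w i) Q ≠ 0) ∧ AnalyticOnNhd ℂ (rat P Q) W ∧
    (∀ w ∈ W, ‖rat P Q w‖ < 1) ∧
    ∀ m ∈ M ∩ U, Filter.Tendsto (fun w => ‖rat P Q w‖ ^ 2) (𝓝[W] m) (𝓝 1)

/-- the restriction of `f` to the points of `W` near `0` extends holomorphically to a neighbourhood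
of `0` -/
def Extends {n : ℕ} (W : Set (EuclideanSpace ℂ (Fin n)))
    (f : EuclideanSpace ℂ (Fin n) → EuclideanSpace ℂ (Fin 2)) : Prop :=
  ∃ V ∈ 𝓝 (0 : EuclideanSpace ℂ (Fin n)),
    ∃ F : EuclideanSpace ℂ (Fin n) → EuclideanSpace ℂ (Fin 2),
      AnalyticOnNhd ℂ F V ∧ ∀ w ∈ V ∩ W, F w = f w

/-- `ℝ^d × ℂ^(n-d)` -/
def MM (n d : ℕ) : Submodule ℝ (EuclideanSpace ℂ (Fin n)) where
  carrier := {w | ∀ i : Fin n, (i : ℕ) < d → (w i).im = 0}
  add_mem' := by
    intro a b ha hb i hi
    simp [ha i hi, hb i hi]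
  zero_mem' := by
    intro i _
    simp
  smul_mem' := by
    intro r a ha i hi
    simp [ha i hi]

/-- `i ℝ^d × 0` -/
def LL (n d : ℕ) : Submodule ℝ (EuclideanSpace ℂ (Fin n)) where
  carrier := {w | ∀ i : Fin n, (w i).re = 0 ∧ (d ≤ (i : ℕ) → w i = 0)}
  add_mem' := by
    intro a b ha hb i
    refine ⟨by simp [(ha i).1, (hb i).1], fun hi => by simp [(ha i).2 hi, (hb i).2 hi]⟩
  zero_mem' := by
    intro i
    simp
  smul_mem' := by
    intro r a ha i
    refine ⟨by simp [(ha i).1], fun hi => by simp [(ha i).2 hi]⟩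

theorem mem_MM {n d : ℕ} {w : EuclideanSpace ℂ (Fin n)} :
    w ∈ MM n d ↔ ∀ i : Fin n, (i : ℕ) < d → (w i).im = 0 := Iff.rfl

theorem mem_LL {n d : ℕ} {w : EuclideanSpace ℂ (Fin n)} :
    w ∈ LL n d ↔ ∀ i : Fin n, (w i).re = 0 ∧ (d ≤ (i : ℕ) → w i = 0) := Iff.rfl

theorem isCompl_ML (n d : ℕ) : IsCompl (MM n d) (LL n d) := by
  refine IsCompl.of_le ?_ ?_
  · intro w hw
    rw [Submodule.mem_inf] at hw
    rw [Submodule.mem_bot]
    ext i
    rcases lt_or_ge (i : ℕ) d with hi | hi
    · exact Complex.ext (hw.2 i).1 (hw.1 i hi)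
    · exact (hw.2 i).2 hi
  · intro w _
    have h1 : w = WithLp.toLp 2 (fun i : Fin n => if (i : ℕ) < d then ((w i).re : ℂ) else w i) +
        WithLp.toLp 2 (fun i : Fin n => if (i : ℕ) < d then ((w i).im : ℂ) * Complex.I else 0) := by
      ext i
      by_cases hi : (i : ℕ) < d
      · simp [hi, Complex.re_add_im]
      · simp [hi]
    rw [h1]
    refine Submodule.add_mem_sup ?_ ?_
    · intro i hi
      simp [hi]
    · intro i
      refine ⟨?_, fun hi => ?_⟩
      · by_cases hi : (i : ℕ) < d <;> simp [hi]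
      · simp [not_lt.mpr hi]

/-- coordinates of `LL` -/
noncomputable def eL (n d : ℕ) (hn : d ≤ n) : (Fin d → ℝ) ≃ₗ[ℝ] LL n d where
  toFun y := ⟨WithLp.toLp 2 (fun i : Fin n =>
      if h : (i : ℕ) < d then ((y ⟨i, h⟩ : ℝ) : ℂ) * Complex.I else 0), by
    intro i
    refine ⟨?_, fun hi => ?_⟩
    · by_cases hi : (i : ℕ) < d <;> simp [hi]
    · simp [not_lt.mpr hi]⟩
  map_add' y z := by
    ext i
    by_cases hi : (i : ℕ) < d
    · simp [hi, add_mul]
    · simp [hi]
  map_smul' r y := by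
    ext i
    by_cases hi : (i : ℕ) < d
    · simp [hi, mul_assoc]
    · simp [hi]
  invFun w j := ((w : EuclideanSpace ℂ (Fin n)) ⟨j, j.2.trans_le hn⟩).im
  left_inv y := by
    ext j
    simp
  right_inv w := by
    ext i
    by_cases hi : (i : ℕ) < d
    · have h1 := (w.2 i).1
      simp only [hi, dif_pos]
      apply Complex.ext
      · simp [h1]
      · simp
    · have h1 := (w.2 i).2 (not_lt.mp hi)
      simp [hi, h1]

theorem finrank_LL {n d : ℕ} (hn : d ≤ n) : Module.finrank ℝ (LL n d) = d := by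
  rw [← (eL n d hn).finrank_eq]
  simp

theorem finrank_MM {n d : ℕ} (hn : d ≤ n) : Module.finrank ℝ (MM n d) + d = 2 * n := by
  have h1 := Submodule.finrank_add_eq_of_isCompl (isCompl_ML n d)
  rw [finrank_LL hn, finrank_real_of_complex, finrank_euclideanSpace_fin] at h1
  exact h1

section example_

variable {n : ℕ} (i0 i1 : Fin n)

/-- the two coordinates -/
noncomputable def phi : EuclideanSpace ℂ (Fin n) →L[ℂ] (Fin 2 → ℂ) :=
  ContinuousLinearMap.pi fun j : Fin 2 =>
    if j = 0 then EuclideanSpace.proj (𝕜 := ℂ) i0 else EuclideanSpace.proj (𝕜 := ℂ) i1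

theorem phi_apply (w : EuclideanSpace ℂ (Fin n)) : phi i0 i1 w = ![w i0, w i1] := by
  ext j
  fin_cases j <;> simp [phi]

/-- the inclusion of the plane of the two coordinates -/
noncomputable def psi : (Fin 2 → ℂ) →L[ℂ] EuclideanSpace ℂ (Fin n) :=
  (PiLp.continuousLinearEquiv 2 ℂ (fun _ : Fin n => ℂ)).symm.toContinuousLinearMap.comp
    (ContinuousLinearMap.pi fun i : Fin n =>
      if i = i0 then ContinuousLinearMap.proj (R := ℂ) (φ := fun _ : Fin 2 => ℂ) 0
      else if i = i1 then ContinuousLinearMap.proj (R := ℂ) (φ := fun _ : Fin 2 => ℂ) 1 else 0)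

theorem psi_apply (u : Fin 2 → ℂ) (i : Fin n) :
    psi i0 i1 u i = if i = i0 then u 0 else if i = i1 then u 1 else 0 := by
  simp only [psi, ContinuousLinearMap.comp_apply]
  by_cases h0 : i = i0
  · simp [h0]
  · by_cases h1 : i = i1
    · subst h1
      simp [h0]
    · simp [h0, h1]

/-- the numerators -/
noncomputable def PP (j : Fin 2) : MvPolynomial (Fin n) ℂ :=
  if j = 0 then (MvPolynomial.C Complex.I - MvPolynomial.X i0) *
      (MvPolynomial.X i0 + MvPolynomial.C Complex.I * MvPolynomial.X i1 ^ 2) + MvPolynomial.X i1 ^ 4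
  else MvPolynomial.C (2 * Complex.I) * MvPolynomial.X i1 ^ 3

/-- the denominator -/
noncomputable def QQ : MvPolynomial (Fin n) ℂ :=
  (MvPolynomial.C Complex.I + MvPolynomial.X i0) *
      (MvPolynomial.X i0 + MvPolynomial.C Complex.I * MvPolynomial.X i1 ^ 2) - MvPolynomial.X i1 ^ 4

theorem eval_QQ (w : EuclideanSpace ℂ (Fin n)) :
    MvPolynomial.eval (fun i => w i) (QQ i0 i1) = Df (phi i0 i1 w) := by
  rw [phi_apply]
  simp [QQ, Df, Qf]

theorem rat_eq (w : EuclideanSpace ℂ (Fin n)) :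
    rat (PP i0 i1) (QQ i0 i1) w = gf (phi i0 i1 w) := by
  have h := eval_QQ i0 i1 w
  ext j
  simp only [rat, gf, PiLp.smul_apply, smul_eq_mul]
  rw [h, div_eq_inv_mul]
  congr 1
  fin_cases j
  · simp [PP, pf, Nf, Qf, phi_apply]
  · simp [PP, pf, Tf, phi_apply]

/-- the cone -/
def cone (d : ℕ) : Set (EuclideanSpace ℂ (Fin n)) :=
  {v | v ∈ LL n d ∧ 0 < (v i0).im ∧ ∀ i, i ≠ i0 → |(v i).im| < (v i0).im}

theorem wedge_bounds {d : ℕ} (h0 : (i0 : ℕ) < d) (h1 : (i1 : ℕ) < d) (hne : i1 ≠ i0)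
    {w : EuclideanSpace ℂ (Fin n)}
    (hw : w ∈ wedge (MM n d) (Metric.ball 0 (1 / 64)) (cone i0 d) (1 / 64)) :
    phi i0 i1 w ∈ Metric.ball (0 : Fin 2 → ℂ) (1 / 32) ∧
      |((phi i0 i1 w) 1).im| < ((phi i0 i1 w) 0).im := by
  obtain ⟨m, ⟨hm, hmU⟩, v, ⟨hvL, hv0, hv⟩, hvd, rfl⟩ := hw
  rw [mem_ball_zero_iff] at hmU
  have hn : ‖m + v‖ < 1 / 32 := by
    calc ‖m + v‖ ≤ ‖m‖ + ‖v‖ := norm_add_le _ _
      _ < 1 / 32 := by linarith
  have hc : ∀ i, ‖(m + v) i‖ < 1 / 32 := fun i => (PiLp.norm_apply_le (m + v) i).trans_lt hn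
  constructor
  · rw [mem_ball_zero_iff, pi_norm_lt_iff (by norm_num)]
    intro j
    rw [phi_apply]
    fin_cases j
    · exact hc i0
    · exact hc i1
  · have e0 : ((m + v) i0).im = (v i0).im := by
      rw [PiLp.add_apply, Complex.add_im, (mem_MM.mp hm) i0 h0, zero_add]
    have e1 : ((m + v) i1).im = (v i1).im := by
      rw [PiLp.add_apply, Complex.add_im, (mem_MM.mp hm) i1 h1, zero_add]
    rw [phi_apply]
    show |((m + v) i1).im| < ((m + v) i0).im
    rw [e0, e1]
    exact hv i1 hne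

end example_

theorem result (n d : ℕ) (hd : 2 ≤ d) (hn : d ≤ n) :
    ∃ (M : Submodule ℝ (EuclideanSpace ℂ (Fin n))) (Γ U : Set (EuclideanSpace ℂ (Fin n)))
      (δ : ℝ) (P : Fin 2 → MvPolynomial (Fin n) ℂ) (Q : MvPolynomial (Fin n) ℂ),
      Generic d M ∧ TransversalCone d M Γ ∧ IsOpen U ∧ 0 ∈ U ∧ 0 < δ ∧ Q ≠ 0 ∧
      NormOneAtEdge M U (wedge M U Γ δ) P Q ∧ ¬ Extends (wedge M U Γ δ) (rat P Q) := by
  set i0 : Fin n := ⟨0, by omega⟩ with hi0
  set i1 : Fin n := ⟨1, by omega⟩ with hi1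
  have h0 : (i0 : ℕ) < d := by simp only [hi0]; omega
  have h1 : (i1 : ℕ) < d := by simp only [hi1]; omega
  have hne : i1 ≠ i0 := by simp [hi0, hi1]
  have hb := fun w hw => wedge_bounds i0 i1 h0 h1 hne (w := w) hw
  have hmain := fun w hw => main_bounds (hb w hw).1 (hb w hw).2
  have hrat : rat (PP i0 i1) (QQ i0 i1) = fun w => gf (phi i0 i1 w) := funext (rat_eq i0 i1)
  refine ⟨MM n d, cone i0 d, Metric.ball 0 (1 / 64), 1 / 64, PP i0 i1, QQ i0 i1,
    ⟨finrank_MM hn, ?_⟩, ⟨LL n d, isCompl_ML n d, finrank_LL hn, ?_, ?_, ?_, ?_, ?_⟩,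
    Metric.isOpen_ball, Metric.mem_ball_self (by norm_num), by norm_num, ?_, ⟨?_, ?_, ?_, ?_⟩, ?_⟩
  · intro v
    refine ⟨WithLp.toLp 2 (fun i : Fin n => if (i : ℕ) < d then ((v i).re : ℂ) else v i), ?_,
      WithLp.toLp 2 (fun i : Fin n => if (i : ℕ) < d then ((v i).im : ℂ) else 0), ?_, ?_⟩
    · intro i hi
      simp [hi]
    · intro i hi
      simp [hi]
    · ext i
      by_cases hi : (i : ℕ) < d
      · simp only [PiLp.add_apply, PiLp.smul_apply, hi, if_true, smul_eq_mul]
        rw [mul_comm]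
        exact (Complex.re_add_im _).symm
      · simp [hi]
  · refine ⟨{v | 0 < (v i0).im} ∩ ⋂ i : Fin n, {v | i ≠ i0 → |(v i).im| < (v i0).im}, ?_, ?_⟩
    · refine IsOpen.inter (isOpen_lt (by fun_prop) (by fun_prop)) (isOpen_iInter_of_finite ?_)
      intro i
      by_cases hi : i = i0
      · simp [hi]
      · have : {v : EuclideanSpace ℂ (Fin n) | i ≠ i0 → |(v i).im| < (v i0).im} =
            {v | |(v i).im| < (v i0).im} := by
          ext v
          simp [hi]
        rw [this]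
        exact isOpen_lt (by fun_prop) (by fun_prop)
    · ext v
      simp only [cone, Set.mem_inter_iff, Set.mem_iInter, SetLike.mem_coe]
      constructor
      · rintro ⟨a, b, c⟩
        exact ⟨⟨b, c⟩, a⟩
      · rintro ⟨⟨b, c⟩, a⟩
        exact ⟨a, b, c⟩
  · intro x hx y hy a b ha hb' hab
    refine ⟨(LL n d).add_mem ((LL n d).smul_mem a hx.1) ((LL n d).smul_mem b hy.1), ?_, ?_⟩
    · have hx0 := hx.2.1
      have hy0 := hy.2.1
      have e : ((a • x + b • y) i0).im = a * (x i0).im + b * (y i0).im := by simp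
      rw [e]
      rcases eq_or_lt_of_le ha with ha | ha
      · have : b = 1 := by linarith
        rw [← ha, this]
        linarith
      · have := mul_pos ha hx0
        have := mul_nonneg hb' hy0.le
        linarith
    · intro i hi
      have hxi := hx.2.2 i hi
      have hyi := hy.2.2 i hi
      have e : ((a • x + b • y) i0).im = a * (x i0).im + b * (y i0).im := by simp
      have e' : ((a • x + b • y) i).im = a * (x i).im + b * (y i).im := by simp
      rw [e, e']
      have h1 : |a * (x i).im + b * (y i).im| ≤ a * |(x i).im| + b * |(y i).im| := by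
        refine (abs_add_le _ _).trans_eq ?_
        rw [abs_mul, abs_mul, abs_of_nonneg ha, abs_of_nonneg hb']
      rcases eq_or_lt_of_le ha with ha | ha
      · have hb1 : b = 1 := by linarith
        rw [← ha, hb1] at h1 ⊢
        linarith
      · have := mul_lt_mul_of_pos_left hxi ha
        have := mul_le_mul_of_nonneg_left hyi.le hb'
        linarith
  · refine ⟨WithLp.toLp 2 (fun i : Fin n => if i = i0 then Complex.I else 0), ?_, ?_, ?_⟩
    · intro i
      refine ⟨?_, fun hi => ?_⟩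
      · by_cases hi : i = i0 <;> simp [hi]
      · have : i ≠ i0 := by
          rintro rfl
          omega
        simp [this]
    · simp
    · intro i hi
      simp [hi]
  · intro h
    have := h.2.1
    simp at this
  · intro v hv t ht
    refine ⟨(LL n d).smul_mem t hv.1, ?_, ?_⟩
    · have e : ((t • v) i0).im = t * (v i0).im := by simp
      rw [e]
      exact mul_pos ht hv.2.1
    · intro i hi
      have e : ((t • v) i0).im = t * (v i0).im := by simp
      have e' : ((t • v) i).im = t * (v i).im := by simp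
      rw [e, e', abs_mul, abs_of_pos ht]
      exact mul_lt_mul_of_pos_left (hv.2.2 i hi) ht
  · intro hQ
    have h2 := eval_QQ i0 i1 (psi i0 i1 ![1, 0])
    rw [hQ, map_zero, phi_apply] at h2
    simp [Df, Qf, psi_apply, hne] at h2
    have := congrArg Complex.re h2
    simp at this
  · intro w hw
    rw [eval_QQ]
    exact (hmain w hw).1
  · intro w hw
    rw [hrat]
    have h2 : AnalyticAt ℂ gf (phi i0 i1 w) :=
      ((analytic_D _ (Set.mem_univ _)).inv (hmain w hw).1).smul (analytic_p _ (Set.mem_univ _))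
    exact h2.comp ((phi i0 i1).analyticAt w)
  · intro w hw
    rw [rat_eq]
    exact (hmain w hw).2.1
  · rintro m ⟨hm, -⟩
    have hm1 : (m i0).im = 0 := (mem_MM.mp hm) i0 h0
    have hlim : Filter.Tendsto (fun w : EuclideanSpace ℂ (Fin n) => 1 - 48 * (w i0).im)
        (𝓝[wedge (MM n d) (Metric.ball 0 (1 / 64)) (cone i0 d) (1 / 64)] m) (𝓝 1) := by
      have hc : Continuous (fun w : EuclideanSpace ℂ (Fin n) => 1 - 48 * (w i0).im) := by
        fun_prop
      have := hc.tendsto m
      rw [hm1] at this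
      simp only [mul_zero, sub_zero] at this
      exact this.mono_left nhdsWithin_le_nhds
    have h3 : Filter.Tendsto (fun w => ‖rat (PP i0 i1) (QQ i0 i1) w‖)
        (𝓝[wedge (MM n d) (Metric.ball 0 (1 / 64)) (cone i0 d) (1 / 64)] m) (𝓝 1) := by
      refine tendsto_of_tendsto_of_tendsto_of_le_of_le' hlim tendsto_const_nhds ?_ ?_
      · filter_upwards [self_mem_nhdsWithin] with w hw
        have := (hmain w hw).2.2
        rw [rat_eq]
        rw [phi_apply] at this ⊢
        exact this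
      · filter_upwards [self_mem_nhdsWithin] with w hw
        rw [rat_eq]
        exact (hmain w hw).2.1.le
    have h4 := h3.pow 2
    rwa [one_pow] at h4
  · rintro ⟨V, hV, F, hF, hFr⟩
    have hψ0 : psi i0 i1 0 = 0 := map_zero _
    have hcont : ContinuousAt (psi i0 i1) 0 := (psi i0 i1).continuous.continuousAt
    have hVU : V ∩ Metric.ball (0 : EuclideanSpace ℂ (Fin n)) (1 / 64) ∈ 𝓝 (psi i0 i1 0) := by
      rw [hψ0]
      exact Filter.inter_mem hV (Metric.ball_mem_nhds _ (by norm_num))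
    obtain ⟨r, hr, hrV⟩ := Metric.mem_nhds_iff.mp (hcont.preimage_mem_nhds hVU)
    refine no_ext hr (fun u => F (psi i0 i1 u) 1) ?_ ?_
    · intro u hu
      have h5 : AnalyticAt ℂ (fun u => F (psi i0 i1 u)) u :=
        (hF _ (hrV hu).1).comp ((psi i0 i1).analyticAt u)
      exact ((EuclideanSpace.proj (𝕜 := ℂ) (1 : Fin 2)).analyticAt _).comp h5
    · intro u hu hΓ
      have hre : (fun j => ((u j).re : ℂ)) ∈ Metric.ball (0 : Fin 2 → ℂ) r := by
        rw [mem_ball_zero_iff, pi_norm_lt_iff hr] at hu ⊢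
        intro j
        refine lt_of_le_of_lt ?_ (hu j)
        rw [Complex.norm_real]
        exact Complex.abs_re_le_norm _
      have him : (fun j => ((u j).im : ℂ) * Complex.I) ∈ Metric.ball (0 : Fin 2 → ℂ) r := by
        rw [mem_ball_zero_iff, pi_norm_lt_iff hr] at hu ⊢
        intro j
        refine lt_of_le_of_lt ?_ (hu j)
        rw [norm_mul, Complex.norm_I, mul_one, Complex.norm_real]
        exact Complex.abs_im_le_norm _
      have h0i : 0 < (u 0).im := lt_of_le_of_lt (abs_nonneg _) hΓ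
      have hw : psi i0 i1 u ∈
          wedge (MM n d) (Metric.ball 0 (1 / 64)) (cone i0 d) (1 / 64) := by
        refine ⟨psi i0 i1 (fun j => ((u j).re : ℂ)), ⟨?_, (hrV hre).2⟩,
          psi i0 i1 (fun j => ((u j).im : ℂ) * Complex.I), ⟨?_, ?_, ?_⟩, ?_, ?_⟩
        · intro i _
          rw [psi_apply]
          split_ifs <;> simp
        · intro i
          rw [psi_apply]
          refine ⟨?_, fun hi => ?_⟩
          · split_ifs <;> simp
          · have e0 : i ≠ i0 := by
              rintro rfl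
              omega
            have e1 : i ≠ i1 := by
              rintro rfl
              omega
            simp [e0, e1]
        · rw [psi_apply]
          simpa using h0i
        · intro i hi
          rw [psi_apply, psi_apply, if_neg hi]
          by_cases hi1 : i = i1
          · simpa [hi1] using hΓ
          · simpa [hi1] using h0i
        · exact mem_ball_zero_iff.mp (hrV him).2
        · rw [← map_add]
          congr 1
          funext j
          exact (Complex.re_add_im _).symm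
      have h6 := hFr _ ⟨(hrV hu).1, hw⟩
      have h7 : phi i0 i1 (psi i0 i1 u) = u := by
        rw [phi_apply]
        ext j
        fin_cases j
        · simp [psi_apply]
        · simp [psi_apply, hne]
      have h8 := (hmain _ hw).1
      rw [rat_eq, h7] at h6
      rw [h7] at h8
      show Df u * (F (psi i0 i1 u)) 1 = Tf u
      rw [h6]
      have : (gf u) 1 = (Df u)⁻¹ * Tf u := by simp [gf, pf]
      rw [this, ← mul_assoc, mul_inv_cancel₀ h8, one_mul]

end Pool.Agent.Results.MP_5915c0_an.EveryCodimension
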